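import Pool.Agent.W79.ST.Basic

/-!
# Project ST, part CNT: presentations and counting
-/

set_option autoImplicit false

namespace Pool.Agent.W933.ST.Cnt

open Pool.Agent.W79.ST
open scoped Classical

section pres

variable {Z A : Type} {S : Pres Z A}

theorem isoP_one : IsoP S S 1 1 := by
  refine ⟨fun x y => ?_, fun a b => Iff.rfl, fun a => rfl⟩
  rcases x with x | x <;> rcases y with y | y <;> exact Iff.rfl

theorem isoP_mul {α α' : Equiv.Perm Z} {β β' : Equiv.Perm A} (h : IsoP S S α β)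
    (h' : IsoP S S α' β') : IsoP S S (α * α') (β * β') := by
  refine ⟨fun x y => ?_, fun a b => ?_, fun a => ?_⟩
  · rw [← h'.1 x y, ← h.1 (Equiv.sumCongr α' β' x) (Equiv.sumCongr α' β' y)]
    rcases x with x | x <;> rcases y with y | y <;> exact Iff.rfl
  · rw [← h'.2.1 a b, ← h.2.1 (β' a) (β' b)]
    exact Iff.rfl
  · rw [← h'.2.2 a, ← h.2.2 (β' a)]
    rfl

theorem sc_inv (α : Equiv.Perm Z) (β : Equiv.Perm A) (x : Z ⊕ A) :
    Equiv.sumCongr α β (Equiv.sumCongr α⁻¹ β⁻¹ x) = x := by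
  rcases x with x | x
  · exact congrArg Sum.inl (α.apply_symm_apply x)
  · exact congrArg Sum.inr (β.apply_symm_apply x)

theorem isoP_inv {α : Equiv.Perm Z} {β : Equiv.Perm A} (h : IsoP S S α β) :
    IsoP S S α⁻¹ β⁻¹ := by
  have hb : ∀ a, β (β⁻¹ a) = a := fun a => β.apply_symm_apply a
  refine ⟨fun x y => ?_, fun a b => ?_, fun a => ?_⟩
  · have := h.1 (Equiv.sumCongr α⁻¹ β⁻¹ x) (Equiv.sumCongr α⁻¹ β⁻¹ y)
    rw [sc_inv, sc_inv] at this
    exact this.symm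
  · have := h.2.1 (β⁻¹ a) (β⁻¹ b)
    rw [hb, hb] at this
    exact this.symm
  · have := h.2.2 (β⁻¹ a)
    rw [hb] at this
    exact this.symm

/-- the permutation of all copies -/
def Q (α : Equiv.Perm Z) (β : Equiv.Perm A) : (Z ⊕ A × ℕ) ≃ (Z ⊕ A × ℕ) :=
  Equiv.sumCongr α (Equiv.prodCongr β (Equiv.refl ℕ))

theorem Q_inl (α : Equiv.Perm Z) (β : Equiv.Perm A) (z : Z) : Q α β (Sum.inl z) = Sum.inl (α z) :=
  rfl

theorem Q_inr (α : Equiv.Perm Z) (β : Equiv.Perm A) (a : A) (i : ℕ) :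
    Q α β (Sum.inr (a, i)) = Sum.inr (β a, i) := rfl

theorem inl_mem (k : A → ℕ) (z : Z) : Sum.inl z ∈ VS (Z := Z) k := fun q hq => by cases hq

theorem inr_mem (k : A → ℕ) (r : A × ℕ) : Sum.inr r ∈ VS (Z := Z) k ↔ r.2 < k r.1 := by
  constructor
  · intro h; exact h r rfl
  · intro h q hq
    cases hq
    exact h

theorem Q_mem {α : Equiv.Perm Z} {β : Equiv.Perm A} (h : IsoP S S α β) (p : Z ⊕ A × ℕ) :
    p ∈ VS (Z := Z) S.m ↔ Q α β p ∈ VS (Z := Z) S.m := by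
  rcases p with z | ⟨a, i⟩
  · exact ⟨fun _ => inl_mem _ _, fun _ => inl_mem _ _⟩
  · rw [Q_inr, inr_mem, inr_mem]
    change i < S.m a ↔ i < S.m (β a)
    rw [h.2.2]

theorem Q_adj {α : Equiv.Perm Z} {β : Equiv.Perm A} (h : IsoP S S α β) (p q : Z ⊕ A × ℕ) :
    xadj S (Q α β p) (Q α β q) ↔ xadj S p q := by
  rcases p with z | ⟨a, i⟩ <;> rcases q with w | ⟨b, j⟩
  · exact h.1 (Sum.inl z) (Sum.inl w)
  · exact h.1 (Sum.inl z) (Sum.inr b)
  · exact h.1 (Sum.inr a) (Sum.inl w)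
  · have h1 := h.1 (Sum.inr a) (Sum.inr b)
    have h2 := h.2.1 a b
    change ((i = j → S.E.Adj (.inr (β a)) (.inr (β b))) ∧ (i ≠ j → S.F (β a) (β b))) ↔
      ((i = j → S.E.Adj (.inr a) (.inr b)) ∧ (i ≠ j → S.F a b))
    have h1' : S.E.Adj (.inr (β a)) (.inr (β b)) ↔ S.E.Adj (.inr a) (.inr b) := h1
    rw [h1', h2]

/-- the permutation of the copies in use -/
def PP {α : Equiv.Perm Z} {β : Equiv.Perm A} (h : IsoP S S α β) :
    Equiv.Perm (VS (Z := Z) S.m) := (Q α β).subtypeEquiv (Q_mem h)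

theorem PP_val {α : Equiv.Perm Z} {β : Equiv.Perm A} (h : IsoP S S α β) (w : VS (Z := Z) S.m) :
    (PP h w).1 = Q α β w.1 := rfl

theorem PP_adj {α : Equiv.Perm Z} {β : Equiv.Perm A} (h : IsoP S S α β)
    (w w' : VS (Z := Z) S.m) : (X S S.m).Adj (PP h w) (PP h w') ↔ (X S S.m).Adj w w' :=
  Q_adj h w.1 w'.1

variable {V : Type} {G : SimpleGraph V}

/-- transport to the graph -/
def rho (e : X S S.m ≃g G) {α : Equiv.Perm Z} {β : Equiv.Perm A} (h : IsoP S S α β) :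
    Equiv.Perm V := e.toEquiv.symm.trans ((PP h).trans e.toEquiv)

theorem rho_apply (e : X S S.m ≃g G) {α : Equiv.Perm Z} {β : Equiv.Perm A} (h : IsoP S S α β)
    (w : VS (Z := Z) S.m) : rho e h (e w) = e (PP h w) := by
  change e (PP h (e.toEquiv.symm (e w))) = e (PP h w)
  congr 2
  exact e.toEquiv.symm_apply_apply w

theorem rho_mem (e : X S S.m ≃g G) {α : Equiv.Perm Z} {β : Equiv.Perm A} (h : IsoP S S α β) :
    rho e h ∈ aut G := by
  intro u v
  obtain ⟨w, rfl⟩ := e.surjective u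
  obtain ⟨w', rfl⟩ := e.surjective v
  rw [rho_apply, rho_apply, SimpleGraph.Iso.map_adj_iff, SimpleGraph.Iso.map_adj_iff, PP_adj]

end pres

theorem main : S_BASE → S_ISO → S_LAY → S_PRES := by
  intro hB hI hL V _ G D hD hcl hC
  obtain ⟨hbs, hbi, hs, hi, hf⟩ := hB V G D hD
  obtain ⟨As, m, δ, h⟩ := hL V G D hD hC
  have hI' := hI V G D hD As m δ h hbs
  have hSm : ∀ a : As, (LP G D As m hbs).m a = m a.1 := fun _ => rfl
  generalize LP G D As m hbs = S at hI' hSm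
  obtain ⟨e, he1, he2⟩ := hI'
  -- values of the isomorphism
  have eZ : ∀ (z : {z : V // ∀ σ ∈ D, σ z = z}) (hz : Sum.inl z ∈ VS (Z := {z : V // ∀ σ ∈ D, σ z = z}) S.m),
      e ⟨Sum.inl z, hz⟩ = z.1 := fun z hz => he1 _ z rfl
  have eA : ∀ (a : As) (i : ℕ) (ha : Sum.inr (a, i) ∈ VS (Z := {z : V // ∀ σ ∈ D, σ z = z}) S.m),
      e ⟨Sum.inr (a, i), ha⟩ = δ a.1 i a.1 := fun a i ha => he2 _ a i rfl
  have rZ : ∀ (α : Equiv.Perm {z : V // ∀ σ ∈ D, σ z = z}) (β : Equiv.Perm As) (hab : IsoP S S α β)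
      (z : {z : V // ∀ σ ∈ D, σ z = z}), rho e hab z.1 = (α z).1 := by
    intro α β hab z
    rw [← eZ z (inl_mem _ _), rho_apply]
    exact eZ (α z) (inl_mem _ _)
  have hm0 : ∀ a : As, 0 < S.m a := fun a => by
    rw [hSm]
    exact lt_of_lt_of_le (by norm_num) (h.big a.1 a.2).1
  have rA : ∀ (α : Equiv.Perm {z : V // ∀ σ ∈ D, σ z = z}) (β : Equiv.Perm As) (hab : IsoP S S α β)
      (a : As), rho e hab a.1 = (β a).1 := by
    intro α β hab a
    have h1 : a.1 = e ⟨Sum.inr (a, 0), (inr_mem _ _).2 (hm0 a)⟩ := by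
      rw [eA, h.zero a.1 a.2]
      rfl
    have h2 : (β a).1 = e ⟨Sum.inr (β a, 0), (inr_mem _ _).2 (hm0 (β a))⟩ := by
      rw [eA, h.zero (β a).1 (β a).2]
      rfl
    conv_lhs => rw [h1]
    rw [h2, rho_apply]
    rfl
  have : Finite {z : V // ∀ σ ∈ D, σ z = z} := Subtype.finite
  have : Finite As := Subtype.finite
  refine ⟨{z : V // ∀ σ ∈ D, σ z = z}, As, Set V, Fintype.ofFinite _, Fintype.ofFinite _, S,
    fun a => comp G D a.1, ?_, ?_, ?_, ⟨e.symm⟩, ?_⟩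
  · intro a
    rw [hSm]
    exact (h.big a.1 a.2).1
  · intro a
    rw [hSm]
    refine le_trans ?_ (h.big a.1 a.2).2
    have h1 : (Subtype.val '' ({b | comp G D b.1 = comp G D a.1} : Set As)) ⊆ comp G D a.1 := by
      rintro _ ⟨b, hb, rfl⟩
      have hb' : comp G D b.1 = comp G D a.1 := hb
      rw [← hb']
      exact mem_comp_self G D b.1
    rw [← Set.ncard_image_of_injective _ Subtype.val_injective]
    exact Set.ncard_le_ncard h1 (Set.toFinite _)
  · intro β hβ a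
    have hβ' : IsoP S S 1 β := hβ
    have h1 : rho e hβ' ∈ D := by
      refine hcl _ (rho_mem e hβ') fun z hz => ?_
      exact rZ 1 β hβ' ⟨z, hz⟩
    have h2 : (β a).1 ∈ comp G D a.1 := by
      refine h.one a.1 a.2 (β a).1 (β a).2 _ h1 ?_
      rw [rA 1 β hβ' a]
      exact mem_comp_self G D _
    exact comp_eq hs h2
  · -- the count
    let rep : Equiv.Perm {z : V // ∀ σ ∈ D, σ z = z} → Equiv.Perm As := fun α =>
      if hα : ∃ β, IsoP S S α β then hα.choose else 1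
    have hrep : ∀ α β, IsoP S S α β → IsoP S S α (rep α) := by
      intro α β hab
      have hα : ∃ β, IsoP S S α β := ⟨β, hab⟩
      simp only [rep, dif_pos hα]
      exact hα.choose_spec
    have hq : ∀ p : Th S, IsoP S S 1 ((rep p.1.1)⁻¹ * p.1.2) := by
      intro p
      have h1 := isoP_mul (isoP_inv (hrep p.1.1 p.1.2 p.2)) p.2
      rwa [inv_mul_cancel] at h1
    let f : (Th S) × D → (aut G) × (ThZ S) := fun q =>
      (⟨rho e q.1.2 * q.2.1, (aut G).mul_mem (rho_mem e q.1.2) (hD q.2.2)⟩,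
        ⟨(rep q.1.1.1)⁻¹ * q.1.1.2, hq q.1⟩)
    have hf : Function.Injective f := by
      rintro ⟨⟨⟨α, β⟩, hp⟩, ⟨d, hd⟩⟩ ⟨⟨⟨α', β'⟩, hp'⟩, ⟨d', hd'⟩⟩ hff
      have h1 : rho e hp * d = rho e hp' * d' :=
        congrArg (fun q : (aut G) × (ThZ S) => (q.1 : Equiv.Perm V)) hff
      have h2 : (rep α)⁻¹ * β = (rep α')⁻¹ * β' :=
        congrArg (fun q : (aut G) × (ThZ S) => (q.2 : Equiv.Perm As)) hff
      have h3 : α = α' := by
        ext z
        have h4 := congrArg (fun σ : Equiv.Perm V => σ z.1) h1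
        simp only [Equiv.Perm.mul_apply] at h4
        rw [z.2 d hd, z.2 d' hd', rZ α β hp, rZ α' β' hp'] at h4
        exact h4
      subst h3
      have h5 : β = β' := mul_left_cancel h2
      subst h5
      have h6 : d = d' := mul_left_cancel h1
      subst h6
      rfl
    have h1 := Nat.card_le_card_of_injective f hf
    rw [Nat.card_prod, Nat.card_prod] at h1
    exact h1

end Pool.Agent.W933.ST.Cnt
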